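import Mathlib
import Pool.Agent.Helper6.FL.Core

/-!
# MP_ef0af8_co: grids, numbers
-/

set_option autoImplicit false

open Finset

namespace Pool.Agent.Helper6.FG

open Pool.Agent.Helper6.FL (bd)

/-- the numbers, in terms of `a = n^(1/3)`, `b = e^(1/3)`, `s = √ρ`. -/
theorem num_aux (L K M a b s : ℝ) (hK : 1 ≤ K) (hL : 1 ≤ L) (hM : M = L ^ 5 * K) (ha : 0 < a)
    (hb : 0 ≤ b) (hs : 0 < s) (h1 : b * s ≤ a ^ 2) (h2 : a ^ 2 ≤ L * (b * s) ∨ s ^ 2 = a ^ 3) :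
    (L ^ 2 * a ^ 3 / s ^ 2) * Real.sqrt (s ^ 2 * (b ^ 3 * K * s)) ≤ M * (a ^ 2 * b ^ 2) ∨
    (L ^ 2 * a ^ 3 / s ^ 2) * Real.sqrt (s ^ 2 * (b ^ 3 * K * s)) ≤ M * a ^ 3 := by
  have hK0 : 0 < K := by linarith
  have hL0 : 0 < L := by linarith
  have hM0 : 0 < M := by rw [hM]; positivity
  have hrad : 0 ≤ s ^ 2 * (b ^ 3 * K * s) := by positivity
  have hKL : L ^ 5 * K ≤ (L ^ 5 * K) ^ 2 := by
    have : 1 ≤ L ^ 5 * K := one_le_mul_of_one_le_of_one_le (one_le_pow₀ hL) hK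
    nlinarith
  rcases h2 with h2 | h2
  · left
    refine le_of_sq_le_sq ?_ (by positivity)
    rw [mul_pow, Real.sq_sqrt hrad]
    -- `b > 0`
    have hb0 : 0 < b := by
      rcases hb.lt_or_eq with h | h
      · exact h
      · rw [← h] at h2
        have : 0 < a ^ 2 := by positivity
        linarith
    have e1 : (L ^ 2 * a ^ 3 / s ^ 2) ^ 2 * (s ^ 2 * (b ^ 3 * K * s)) =
        L ^ 4 * K * a ^ 6 * b ^ 3 / s := by
      field_simp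
    rw [e1, div_le_iff₀ hs]
    have h3 : L ^ 4 * K * a ^ 6 * b ^ 3 ≤ (L ^ 5 * K) * (a ^ 4 * b ^ 4) * s := by
      have h4 : 0 ≤ L ^ 4 * K * a ^ 4 * b ^ 3 := by positivity
      have h5 := mul_le_mul_of_nonneg_left h2 h4
      calc L ^ 4 * K * a ^ 6 * b ^ 3 = L ^ 4 * K * a ^ 4 * b ^ 3 * a ^ 2 := by ring
        _ ≤ L ^ 4 * K * a ^ 4 * b ^ 3 * (L * (b * s)) := h5
        _ = (L ^ 5 * K) * (a ^ 4 * b ^ 4) * s := by ring
    refine h3.trans ?_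
    rw [hM]
    have h6 : 0 ≤ (a ^ 4 * b ^ 4) * s := by positivity
    have h7 := mul_le_mul_of_nonneg_right hKL h6
    calc (L ^ 5 * K) * (a ^ 4 * b ^ 4) * s = (L ^ 5 * K) * ((a ^ 4 * b ^ 4) * s) := by ring
      _ ≤ (L ^ 5 * K) ^ 2 * ((a ^ 4 * b ^ 4) * s) := h7
      _ = (L ^ 5 * K * (a ^ 2 * b ^ 2)) ^ 2 * s := by ring
  · right
    refine le_of_sq_le_sq ?_ (by positivity)
    rw [mul_pow, Real.sq_sqrt hrad]
    have e1 : (L ^ 2 * a ^ 3 / s ^ 2) ^ 2 * (s ^ 2 * (b ^ 3 * K * s)) =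
        L ^ 4 * K * (b * s) ^ 3 := by
      have h3 : a ^ 3 = s ^ 2 := h2.symm
      rw [h3]
      field_simp
    rw [e1]
    have h3 : (b * s) ^ 3 ≤ (a ^ 2) ^ 3 := pow_le_pow_left₀ (by positivity) h1 3
    have h4 : L ^ 4 * K ≤ (L ^ 5 * K) ^ 2 := by
      refine le_trans ?_ hKL
      exact mul_le_mul_of_nonneg_right (pow_le_pow_right₀ hL (by norm_num)) hK0.le
    calc L ^ 4 * K * (b * s) ^ 3 ≤ (L ^ 5 * K) ^ 2 * (a ^ 2) ^ 3 :=
          mul_le_mul h4 h3 (by positivity) (by positivity)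
      _ = (M * a ^ 3) ^ 2 := by rw [hM]; ring

/-- the choice of the parameter. -/
theorem num (d : ℕ) (K n e ρ : ℝ) (hK : 1 ≤ K) (hn : 1 ≤ n) (he : 0 ≤ e) (hρ : 1 ≤ ρ)
    (h1 : e ^ 2 * ρ ^ 3 ≤ n ^ 4) (h2 : n ^ 4 ≤ 64 ^ d * (e ^ 2 * ρ ^ 3) ∨ ρ = n) :
    n + (4 ^ d * n / ρ) * Real.sqrt (ρ * (e * K * Real.sqrt ρ)) + e * K * Real.sqrt ρ ≤
      2 * ((2 ^ d) ^ 5 * K) * bd n e := by
  set a : ℝ := n ^ (1 / 3 : ℝ) with ha
  set b : ℝ := e ^ (1 / 3 : ℝ) with hb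
  set s : ℝ := Real.sqrt ρ with hs
  set L : ℝ := 2 ^ d with hL
  have hn0 : 0 < n := by linarith
  have ha0 : 0 < a := Real.rpow_pos_of_pos hn0 _
  have hb0 : 0 ≤ b := Real.rpow_nonneg he _
  have hs0 : 0 < s := Real.sqrt_pos.2 (by linarith)
  have hL1 : 1 ≤ L := one_le_pow₀ (by norm_num)
  have ea : a ^ 3 = n := by
    rw [ha, ← Real.rpow_natCast, ← Real.rpow_mul hn0.le]; norm_num
  have eb : b ^ 3 = e := by
    rw [hb, ← Real.rpow_natCast, ← Real.rpow_mul he]; norm_num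
  have es : s ^ 2 = ρ := Real.sq_sqrt (by linarith)
  have ea2 : n ^ (2 / 3 : ℝ) = a ^ 2 := by
    rw [ha, ← Real.rpow_natCast, ← Real.rpow_mul hn0.le]; norm_num
  have eb2 : e ^ (2 / 3 : ℝ) = b ^ 2 := by
    rw [hb, ← Real.rpow_natCast, ← Real.rpow_mul he]; norm_num
  have k1 : b * s ≤ a ^ 2 := by
    refine le_of_pow_le_pow_left₀ (n := 6) (by norm_num) (by positivity) ?_
    calc (b * s) ^ 6 = (b ^ 3) ^ 2 * (s ^ 2) ^ 3 := by ring
      _ = e ^ 2 * ρ ^ 3 := by rw [eb, es]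
      _ ≤ n ^ 4 := h1
      _ = (a ^ 2) ^ 6 := by rw [← ea]; ring
  have k2 : a ^ 2 ≤ L * (b * s) ∨ s ^ 2 = a ^ 3 := by
    rcases h2 with h2 | h2
    · left
      refine le_of_pow_le_pow_left₀ (n := 6) (by norm_num) (by positivity) ?_
      calc (a ^ 2) ^ 6 = (a ^ 3) ^ 4 := by ring
        _ = n ^ 4 := by rw [ea]
        _ ≤ 64 ^ d * (e ^ 2 * ρ ^ 3) := h2
        _ = (2 ^ 6) ^ d * ((b ^ 3) ^ 2 * (s ^ 2) ^ 3) := by rw [eb, es]; norm_num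
        _ = (L * (b * s)) ^ 6 := by rw [← pow_mul, mul_comm 6 d, pow_mul, ← hL]; ring
    · right; rw [es, ea, h2]
  have e4 : (4 : ℝ) ^ d = L ^ 2 := by
    rw [hL, ← pow_mul, mul_comm d 2, pow_mul]; norm_num
  set M : ℝ := L ^ 5 * K with hM
  have hM1 : 1 ≤ M := one_le_mul_of_one_le_of_one_le (one_le_pow₀ hL1) hK
  have hKM : K ≤ M := by
    have := mul_le_mul_of_nonneg_right (one_le_pow₀ hL1 (n := 5)) (by linarith : (0:ℝ) ≤ K)
    rw [one_mul] at this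
    exact this
  have hmain := num_aux L K M a b s hK hL1 rfl ha0 hb0 hs0 k1 k2
  rw [ea, eb, es, ← e4] at hmain
  have hbd : bd n e = a ^ 2 * b ^ 2 + n + e := by unfold bd; rw [ea2, eb2]
  rw [hbd]
  have hX : 0 ≤ a ^ 2 * b ^ 2 := by positivity
  have t3 : e * K * s ≤ M * (a ^ 2 * b ^ 2) := by
    have h3 : e * s ≤ a ^ 2 * b ^ 2 := by
      have := mul_le_mul_of_nonneg_left k1 (sq_nonneg b)
      calc e * s = b ^ 2 * (b * s) := by rw [← eb]; ring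
        _ ≤ b ^ 2 * a ^ 2 := this
        _ = a ^ 2 * b ^ 2 := by ring
    calc e * K * s = K * (e * s) := by ring
      _ ≤ M * (a ^ 2 * b ^ 2) := mul_le_mul hKM h3 (by positivity) (by linarith)
  have hMe : 0 ≤ M * e := mul_nonneg (by linarith) he
  have hMn : n ≤ M * n := by nlinarith
  rcases hmain with h | h
  · linarith
  · have : 0 ≤ M * (a ^ 2 * b ^ 2) := mul_nonneg (by linarith) hX
    linarith

end Pool.Agent.Helper6.FG
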