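import Pool.Agent.Helper6.FG.Main
import Pool.Agent.Helper6.FG.Num

/-!
# MP_ef0af8_co: grids, choice of the parameter
-/

set_option autoImplicit false

open Finset
open scoped Classical

namespace Pool.Agent.Helper6.FG

open Pool.Agent.Helper6.FL (inc inc_le_left inc_filter_add bd)

theorem rho_one {ι : Type} [Fintype ι] (N : ι → ℕ) (hN : ∀ i, 1 ≤ N i) :
    ∏ i, min (N i) 1 = 1 := by
  refine prod_eq_one fun i _ => ?_
  exact min_eq_right (hN i)

theorem rho_succ {ι : Type} [Fintype ι] (N : ι → ℕ) (r : ℕ) (hr : 1 ≤ r) :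
    ∏ i, min (N i) (r + 1) ≤ 2 ^ Fintype.card ι * ∏ i, min (N i) r := by
  have h : ∏ i, min (N i) (r + 1) ≤ ∏ i, 2 * min (N i) r := by
    refine prod_le_prod' fun i _ => ?_
    rcases le_total (N i) r with h | h
    · rw [min_eq_left h, min_eq_left (by omega)]; omega
    · rw [min_eq_right h]
      exact (min_le_right _ _).trans (by omega)
  refine h.trans (le_of_eq ?_)
  rw [prod_mul_distrib, prod_const, card_univ]

/-- the choice of `r`. -/
theorem exists_r {ι : Type} [Fintype ι] (d : ℕ) (hι : Fintype.card ι = 2 * d) (N : ι → ℕ)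
    (hN : ∀ i, 1 ≤ N i) (e : ℕ) (he : e ≤ (∏ i, N i) ^ 2) :
    ∃ r, 1 ≤ r ∧ e ^ 2 * (∏ i, min (N i) r) ^ 3 ≤ (∏ i, N i) ^ 4 ∧
      ((∏ i, N i) ^ 4 ≤ 64 ^ d * (e ^ 2 * (∏ i, min (N i) r) ^ 3) ∨
        ∏ i, min (N i) r = ∏ i, N i) := by
  set n := ∏ i, N i with hn
  set Mx : ℕ := ∑ i, N i + 1 with hMx
  have hMxi : ∀ i, N i ≤ Mx := fun i =>
    (single_le_sum (f := N) (fun _ _ => Nat.zero_le _) (mem_univ i)).trans (Nat.le_succ _)
  set S : Finset ℕ := (Icc 1 Mx).filter fun r => e ^ 2 * (∏ i, min (N i) r) ^ 3 ≤ n ^ 4 with hS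
  have h1 : 1 ∈ S := by
    rw [hS, mem_filter, mem_Icc]
    refine ⟨⟨le_refl _, by omega⟩, ?_⟩
    rw [rho_one N hN, one_pow, mul_one]
    calc e ^ 2 ≤ (n ^ 2) ^ 2 := Nat.pow_le_pow_left he 2
      _ = n ^ 4 := by rw [← pow_mul]
  have hSne : S.Nonempty := ⟨1, h1⟩
  have hmem := S.max'_mem hSne
  set r := S.max' hSne with hr
  have hmem' := hmem
  rw [hS, mem_filter, mem_Icc] at hmem'
  refine ⟨r, hmem'.1.1, hmem'.2, ?_⟩
  rcases Nat.lt_or_ge r Mx with h | h
  · left
    have h2 : r + 1 ∉ S := fun hcon => by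
      have := S.le_max' _ hcon
      omega
    rw [hS, mem_filter, mem_Icc] at h2
    push Not at h2
    have h3 := h2 ⟨by omega, by omega⟩
    have h4 := rho_succ N r hmem'.1.1
    rw [hι] at h4
    refine h3.le.trans ?_
    calc e ^ 2 * (∏ i, min (N i) (r + 1)) ^ 3 ≤
          e ^ 2 * (2 ^ (2 * d) * ∏ i, min (N i) r) ^ 3 :=
          Nat.mul_le_mul_left _ (Nat.pow_le_pow_left h4 3)
      _ = 64 ^ d * (e ^ 2 * (∏ i, min (N i) r) ^ 3) := by
          have : (64 : ℕ) ^ d = (2 ^ (2 * d)) ^ 3 := by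
            rw [← pow_mul, mul_comm (2 * d) 3, ← mul_assoc, pow_mul]
            norm_num
          rw [this]; ring
  · right
    refine prod_congr rfl fun i _ => ?_
    exact min_eq_left ((hMxi i).trans h)

section

variable {E : Type} [AddCommGroup E] [Module ℝ E] {ι : Type} [Fintype ι]

/-- the estimate for grids. -/
theorem grid_main [FiniteDimensional ℝ E] (d : ℕ) (hι : Fintype.card ι = 2 * d)
    (g : ι → (E →ₗ[ℝ] ℝ)) (hg : Function.Injective fun x i => g i x) (A : ι → Finset ℝ)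
    (P : Finset E) (hP : ∀ x ∈ P, ∀ i, g i x ∈ A i)
    (hPc : P.card = ∏ i, (A i).card) {β : Type} (F : Finset β) (D : β → Submodule ℝ E)
    (c : β → E) (hD : ∀ b ∈ F, Module.finrank ℝ (D b) = d)
    (hT : ∀ b ∈ F, ∀ b' ∈ F, b ≠ b' → ∀ p ∈ P, p - c b ∈ D b → p - c b' ∈ D b' →
      D b ⊓ D b' = ⊥) :
    (inc P F (fun p b => p - c b ∈ D b) : ℝ) ≤
      2 * ((2 ^ d) ^ 5 * (((2 * d + 1) ^ (2 * d) : ℕ) : ℝ)) * bd P.card F.card := by
  have hK1 : (1 : ℝ) ≤ (((2 * d + 1) ^ (2 * d) : ℕ) : ℝ) :=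
    Nat.one_le_cast.2 (Nat.one_le_pow _ _ (by omega))
  have hL1 : (1 : ℝ) ≤ (2 ^ d) ^ 5 := one_le_pow₀ (one_le_pow₀ (by norm_num))
  have hC1 : (2 : ℝ) ≤ 2 * ((2 ^ d) ^ 5 * (((2 * d + 1) ^ (2 * d) : ℕ) : ℝ)) := by
    have := one_le_mul_of_one_le_of_one_le hL1 hK1
    linarith
  have hX : (0 : ℝ) ≤ (P.card : ℝ) ^ (2 / 3 : ℝ) * (F.card : ℝ) ^ (2 / 3 : ℝ) :=
    mul_nonneg (Real.rpow_nonneg (Nat.cast_nonneg _) _) (Real.rpow_nonneg (Nat.cast_nonneg _) _)
  have hn0 : (0 : ℝ) ≤ P.card := Nat.cast_nonneg _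
  have he0 : (0 : ℝ) ≤ F.card := Nat.cast_nonneg _
  have hbd0 : (F.card : ℝ) ≤ bd P.card F.card := by unfold bd; linarith
  have hbd1 : (0 : ℝ) ≤ bd P.card F.card := le_trans he0 hbd0
  by_cases hA : ∀ i, 1 ≤ (A i).card
  · by_cases he : F.card ≤ (∏ i, (A i).card) ^ 2
    · obtain ⟨r, hr1, hr2, hr3⟩ := exists_r d hι (fun i => (A i).card) hA F.card he
      have hfix := fixed_r d hι g hg A hA P hP hPc F D c hD hT r hr1
      have hn1 : (1 : ℝ) ≤ P.card := by
        rw [hPc]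
        exact Nat.one_le_cast.2 (Nat.one_le_iff_ne_zero.2 (prod_ne_zero_iff.2 fun i _ => by
          have := hA i; omega))
      have hρ1 : (1 : ℝ) ≤ ((∏ i, min (A i).card r : ℕ) : ℝ) :=
        Nat.one_le_cast.2 (Nat.one_le_iff_ne_zero.2 (prod_ne_zero_iff.2 fun i _ => by
          have := hA i
          have h2 : 1 ≤ min (A i).card r := le_min this hr1
          omega))
      rw [← hPc] at hr2 hr3
      have h2' : (F.card : ℝ) ^ 2 * ((∏ i, min (A i).card r : ℕ) : ℝ) ^ 3 ≤ (P.card : ℝ) ^ 4 := by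
        exact_mod_cast hr2
      have h3' : (P.card : ℝ) ^ 4 ≤ 64 ^ d * ((F.card : ℝ) ^ 2 *
          ((∏ i, min (A i).card r : ℕ) : ℝ) ^ 3) ∨
          ((∏ i, min (A i).card r : ℕ) : ℝ) = P.card := by
        rcases hr3 with h | h
        · left; exact_mod_cast h
        · right; exact_mod_cast h
      exact hfix.trans (num d _ _ _ _ hK1 hn1 he0 hρ1 h2' h3')
    · push Not at he
      have hK22 : K22 P F (fun p b => p - c b ∈ D b) := by
        intro b hb b' hb' hne p hp p' _ h1 h2 h3 h4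
        have hbot := hT b hb b' hb' hne p hp h1 h2
        have h5 : p - p' ∈ D b ⊓ D b' := by
          constructor
          · rw [show p - p' = (p - c b) - (p' - c b) by abel]
            exact (D b).sub_mem h1 h3
          · rw [show p - p' = (p - c b') - (p' - c b') by abel]
            exact (D b').sub_mem h2 h4
        rw [hbot, Submodule.mem_bot] at h5
        exact sub_eq_zero.1 h5
      have hkst := kst P F _ hK22
      have h6 : (P.card : ℝ) ≤ Real.sqrt F.card := by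
        refine Real.le_sqrt_of_sq_le ?_
        rw [← hPc] at he
        exact_mod_cast he.le
      have h7 : (P.card : ℝ) * Real.sqrt F.card ≤ F.card := by
        have h8 := mul_le_mul_of_nonneg_right h6 (Real.sqrt_nonneg (F.card : ℝ))
        rwa [Real.mul_self_sqrt he0] at h8
      calc (inc P F (fun p b => p - c b ∈ D b) : ℝ) ≤ 2 * F.card := by linarith
        _ ≤ 2 * bd P.card F.card := by linarith
        _ ≤ _ := mul_le_mul_of_nonneg_right hC1 hbd1
  · push Not at hA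
    obtain ⟨i, hi⟩ := hA
    have hP0 : P = ∅ := by
      rw [← card_eq_zero, hPc]
      exact prod_eq_zero (mem_univ i) (by omega)
    have hinc : inc P F (fun p b => p - c b ∈ D b) = 0 := by
      rw [hP0]; unfold inc; exact sum_empty
    rw [hinc, Nat.cast_zero]
    exact mul_nonneg (by linarith) hbd1

end

end Pool.Agent.Helper6.FG
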