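import Mathlib

/-!
# MP_ef0af8_co: grids, complementary sets of coordinates of two transversal subspaces
-/

set_option autoImplicit false

open Finset
open scoped Classical

namespace Pool.Agent.Helper6.FG

theorem compl_bases {E : Type} [AddCommGroup E] [Module ℝ E] [FiniteDimensional ℝ E] {ι : Type}
    [Fintype ι] (d : ℕ) (hι : Fintype.card ι = 2 * d) (g : ι → (E →ₗ[ℝ] ℝ))
    (hg : ∀ v, (∀ i, g i v = 0) → v = 0) (D D' : Submodule ℝ E) (hD : Module.finrank ℝ D = d)
    (hD' : Module.finrank ℝ D' = d) (hDD : D ⊓ D' = ⊥) :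
    ∃ B : Finset ι, (∀ v ∈ D, (∀ i ∈ B, g i v = 0) → v = 0) ∧
      ∀ v ∈ D', (∀ i, i ∉ B → g i v = 0) → v = 0 := by
  let b := Module.finBasisOfFinrankEq ℝ D hD
  let b' := Module.finBasisOfFinrankEq ℝ D' hD'
  have e : ι ≃ Fin d ⊕ Fin d := Fintype.equivOfCardEq (by
    rw [hι, Fintype.card_sum, Fintype.card_fin]; ring)
  let r1 : Fin d ⊕ Fin d → Fin d ⊕ Fin d → ℝ := fun a c =>
    Sum.elim (fun j => g (e.symm a) (b j : E)) (fun _ => 0) c
  let r2 : Fin d ⊕ Fin d → Fin d ⊕ Fin d → ℝ := fun a c =>
    Sum.elim (fun _ => 0) (fun j => g (e.symm a) (b' j : E)) c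
  have hb : ∀ (a : Fin d ⊕ Fin d) (u : Fin d → ℝ), ∑ j, g (e.symm a) (b j : E) * u j =
      g (e.symm a) ((∑ j, u j • b j : D) : E) := by
    intro a u
    rw [Submodule.coe_sum, map_sum]
    refine sum_congr rfl fun j _ => ?_
    rw [Submodule.coe_smul, map_smul, smul_eq_mul, mul_comm]
  have hb' : ∀ (a : Fin d ⊕ Fin d) (u : Fin d → ℝ), ∑ j, g (e.symm a) (b' j : E) * u j =
      g (e.symm a) ((∑ j, u j • b' j : D') : E) := by
    intro a u
    rw [Submodule.coe_sum, map_sum]
    refine sum_congr rfl fun j _ => ?_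
    rw [Submodule.coe_smul, map_smul, smul_eq_mul, mul_comm]
  -- the full matrix is nonsingular
  have hdet : Matrix.det (Matrix.of (r1 + r2)) ≠ 0 := by
    intro h0
    obtain ⟨w, hw0, hw⟩ := Matrix.exists_mulVec_eq_zero_iff.2 h0
    apply hw0
    set v : E := ((∑ j, w (Sum.inl j) • b j : D) : E) with hv
    set v' : E := ((∑ j, w (Sum.inr j) • b' j : D') : E) with hv'
    have h1 : v + v' = 0 := by
      apply hg
      intro i
      have h2 := congrFun hw (e i)
      rw [Matrix.mulVec, dotProduct, Fintype.sum_sum_type] at h2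
      have h3 : ∀ j, Matrix.of (r1 + r2) (e i) (Sum.inl j) = g (e.symm (e i)) (b j : E) := by
        intro j
        simp [r1, r2]
      have h4 : ∀ j, Matrix.of (r1 + r2) (e i) (Sum.inr j) = g (e.symm (e i)) (b' j : E) := by
        intro j
        simp [r1, r2]
      simp only [h3, h4] at h2
      rw [hb, hb', Equiv.symm_apply_apply] at h2
      rw [map_add]
      exact h2
    have h2 : v = -v' := eq_neg_of_add_eq_zero_left h1
    have h3 : v ∈ D ⊓ D' := by
      refine ⟨(∑ j, w (Sum.inl j) • b j : D).2, ?_⟩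
      rw [h2]
      exact D'.neg_mem (∑ j, w (Sum.inr j) • b' j : D').2
    rw [hDD, Submodule.mem_bot] at h3
    have h4 : v' = 0 := by rw [h3, zero_add] at h1; exact h1
    have h5 : (∑ j, w (Sum.inl j) • b j : D) = 0 := Subtype.ext h3
    have h6 : (∑ j, w (Sum.inr j) • b' j : D') = 0 := Subtype.ext h4
    have h7 := Fintype.linearIndependent_iff.1 b.linearIndependent _ h5
    have h8 := Fintype.linearIndependent_iff.1 b'.linearIndependent _ h6
    funext c
    rcases c with j | j
    · exact h7 j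
    · exact h8 j
  -- expand the determinant in the rows
  have hexp := (Matrix.detRowAlternating (n := Fin d ⊕ Fin d)
    (R := ℝ)).toMultilinearMap.map_add_univ r1 r2
  have hne : (Matrix.detRowAlternating (n := Fin d ⊕ Fin d)
      (R := ℝ)).toMultilinearMap (r1 + r2) ≠ 0 := hdet
  rw [hexp] at hne
  obtain ⟨s, -, hs⟩ := exists_ne_zero_of_sum_ne_zero hne
  have hs' : Matrix.det (Matrix.of (s.piecewise r1 r2)) ≠ 0 := hs
  refine ⟨univ.filter fun i => e i ∈ s, ?_, ?_⟩
  · intro v hv hvi
    by_contra hv0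
    set u : Fin d → ℝ := fun j => b.repr ⟨v, hv⟩ j with hu
    have hsum : (∑ j, u j • b j : D) = ⟨v, hv⟩ := b.sum_repr ⟨v, hv⟩
    apply hs'
    rw [← Matrix.exists_mulVec_eq_zero_iff]
    refine ⟨Sum.elim u (fun _ => 0), ?_, ?_⟩
    · intro h0
      apply hv0
      have h1 : ∀ j, u j = 0 := fun j => congrFun h0 (Sum.inl j)
      have h2 : (⟨v, hv⟩ : D) = 0 := by
        rw [← hsum]
        exact sum_eq_zero fun j _ => by rw [h1 j, zero_smul]
      exact congrArg Subtype.val h2
    · funext a
      rw [Matrix.mulVec, dotProduct, Fintype.sum_sum_type]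
      by_cases ha : a ∈ s
      · have h3 : ∀ c, Matrix.of (s.piecewise r1 r2) a c = r1 a c := by
          intro c
          rw [Matrix.of_apply, piecewise_eq_of_mem _ _ _ ha]
        simp only [h3, r1, Sum.elim_inl, Sum.elim_inr, mul_zero, sum_const_zero, add_zero]
        rw [hb, hsum]
        have h4 := hvi (e.symm a) (by rw [mem_filter, Equiv.apply_symm_apply]; exact ⟨mem_univ _, ha⟩)
        exact h4
      · have h3 : ∀ c, Matrix.of (s.piecewise r1 r2) a c = r2 a c := by
          intro c
          rw [Matrix.of_apply, piecewise_eq_of_notMem _ _ _ ha]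
        simp only [h3, r2, Sum.elim_inl, Sum.elim_inr, mul_zero, zero_mul, sum_const_zero, add_zero]
        rfl
  · intro v hv hvi
    by_contra hv0
    set u : Fin d → ℝ := fun j => b'.repr ⟨v, hv⟩ j with hu
    have hsum : (∑ j, u j • b' j : D') = ⟨v, hv⟩ := b'.sum_repr ⟨v, hv⟩
    apply hs'
    rw [← Matrix.exists_mulVec_eq_zero_iff]
    refine ⟨Sum.elim (fun _ => 0) u, ?_, ?_⟩
    · intro h0
      apply hv0
      have h1 : ∀ j, u j = 0 := fun j => congrFun h0 (Sum.inr j)
      have h2 : (⟨v, hv⟩ : D') = 0 := by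
        rw [← hsum]
        exact sum_eq_zero fun j _ => by rw [h1 j, zero_smul]
      exact congrArg Subtype.val h2
    · funext a
      rw [Matrix.mulVec, dotProduct, Fintype.sum_sum_type]
      by_cases ha : a ∈ s
      · have h3 : ∀ c, Matrix.of (s.piecewise r1 r2) a c = r1 a c := by
          intro c
          rw [Matrix.of_apply, piecewise_eq_of_mem _ _ _ ha]
        simp only [h3, r1, Sum.elim_inl, Sum.elim_inr, mul_zero, zero_mul, sum_const_zero, add_zero]
        rfl
      · have h3 : ∀ c, Matrix.of (s.piecewise r1 r2) a c = r2 a c := by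
          intro c
          rw [Matrix.of_apply, piecewise_eq_of_notMem _ _ _ ha]
        simp only [h3, r2, Sum.elim_inl, Sum.elim_inr, zero_mul, sum_const_zero, zero_add]
        rw [hb', hsum]
        have h4 := hvi (e.symm a) (by
          rw [mem_filter, Equiv.apply_symm_apply]; exact fun h => ha h.2)
        exact h4

end Pool.Agent.Helper6.FG
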