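import Mathlib

/-!
# MP_ef0af8_co: grids, partition of a finite set of reals into intervals
-/

set_option autoImplicit false

open Finset
open scoped Classical

namespace Pool.Agent.Helper6.FG

/-- the index of the cell of `x` for the thresholds `B`. -/
noncomputable def ci (B : Finset ℝ) (x : ℝ) : ℕ := (B.filter fun β => β ≤ x).card

theorem ci_le (B : Finset ℝ) (x : ℝ) : ci B x ≤ B.card := card_le_card (filter_subset _ _)

/-- A finite set of `N` reals is divided by fewer than `ρ` thresholds into parts of size at most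
`2 N / ρ`. -/
theorem part (A : Finset ℝ) (ρ : ℕ) (hρ : 1 ≤ ρ) (hA : ρ ≤ A.card) :
    ∃ B : Finset ℝ, B.card < ρ ∧
      ∀ c : ℕ, ((A.filter fun x => ci B x = c).card : ℝ) ≤ 2 * A.card / ρ := by
  set N := A.card with hN
  set q := (N + ρ - 1) / ρ with hq
  have hq1 : 1 ≤ q := by
    rw [hq, Nat.le_div_iff_mul_le (by omega)]; omega
  have hq2 : N ≤ ρ * q := by
    have h1 := Nat.lt_div_mul_add (a := N + ρ - 1) (b := ρ) (by omega)
    rw [← hq] at h1
    have h2 : q * ρ = ρ * q := mul_comm _ _
    omega
  have hq3 : q * ρ ≤ N + ρ - 1 := Nat.div_mul_le_self _ _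
  let a : Fin N ↪o ℝ := A.orderEmbOfFin hN.symm
  have ha : ∀ k, a k ∈ A := fun k => A.orderEmbOfFin_mem hN.symm k
  have hsurj : ∀ x ∈ A, ∃ k, a k = x := by
    intro x hx
    have h1 : (x : ℝ) ∈ Set.range (A.orderEmbOfFin hN.symm) := by
      rw [A.range_orderEmbOfFin hN.symm]; exact hx
    exact h1
  set J : Finset (Fin N) := univ.filter fun k => (k : ℕ) ≠ 0 ∧ q ∣ (k : ℕ) with hJ
  have hcount : ∀ m : ℕ, m ≤ N → ((univ : Finset (Fin N)).filter fun k : Fin N => ((k : ℕ) ≠ 0 ∧
      q ∣ (k : ℕ)) ∧ (k : ℕ) < m).card = (m - 1) / q := by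
    intro m hm
    rw [← Nat.Ioc_filter_dvd_card_eq_div (m - 1) q]
    refine card_bij (fun k _ => (k : ℕ)) ?_ ?_ ?_
    · intro k hk
      rw [mem_filter] at hk
      rw [mem_filter, mem_Ioc]
      exact ⟨⟨Nat.pos_of_ne_zero hk.2.1.1, by omega⟩, hk.2.1.2⟩
    · intro k _ k' _ h
      exact Fin.ext h
    · intro j hj
      rw [mem_filter, mem_Ioc] at hj
      refine ⟨⟨j, by omega⟩, ?_, rfl⟩
      rw [mem_filter]
      exact ⟨mem_univ _, ⟨by simp only; omega, hj.2⟩, by simp only; omega⟩
  refine ⟨J.map a.toEmbedding, ?_, ?_⟩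
  · rw [card_map]
    have h1 := hcount N le_rfl
    have h2 : J = (univ : Finset (Fin N)).filter fun k : Fin N => ((k : ℕ) ≠ 0 ∧
        q ∣ (k : ℕ)) ∧ (k : ℕ) < N := by
      rw [hJ]
      ext k
      simp only [mem_filter, mem_univ, true_and]
      exact ⟨fun h => ⟨h, k.2⟩, fun h => h.1⟩
    rw [h2, h1, Nat.div_lt_iff_lt_mul (by omega)]
    have : ρ * q = q * ρ := mul_comm _ _
    omega
  · intro c
    -- the cell of `a k` is `k / q`
    have hci : ∀ k : Fin N, ci (J.map a.toEmbedding) (a k) = (k : ℕ) / q := by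
      intro k
      have h1 := hcount (k + 1) k.2
      rw [Nat.add_sub_cancel] at h1
      rw [← h1]
      unfold ci
      rw [filter_map, card_map]
      congr 1
      rw [hJ, filter_filter]
      ext j
      simp only [mem_filter, mem_univ, true_and, Function.comp_apply, RelEmbedding.coe_toEmbedding,
        a.le_iff_le]
      rw [Fin.le_def, Nat.lt_succ_iff]
    have h1 : (A.filter fun x => ci (J.map a.toEmbedding) x = c).card ≤ q := by
      have h2 : (A.filter fun x => ci (J.map a.toEmbedding) x = c) ⊆
          ((univ : Finset (Fin N)).filter fun k : Fin N => (k : ℕ) / q = c).map a.toEmbedding := by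
        intro x hx
        rw [mem_filter] at hx
        obtain ⟨k, rfl⟩ := hsurj x hx.1
        rw [mem_map]
        refine ⟨k, ?_, rfl⟩
        rw [mem_filter]
        exact ⟨mem_univ _, by rw [← hci]; exact hx.2⟩
      refine (card_le_card h2).trans ?_
      rw [card_map]
      calc ((univ : Finset (Fin N)).filter fun k : Fin N => (k : ℕ) / q = c).card
          ≤ (Ico (c * q) (c * q + q)).card := by
            refine card_le_card_of_injOn (fun k => (k : ℕ)) ?_ ?_
            · intro k hk
              rw [mem_coe, mem_filter] at hk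
              rw [mem_coe, mem_Ico]
              have h3 := hk.2
              rw [← h3]
              have h4 := Nat.div_mul_le_self (k : ℕ) q
              have h5 := Nat.lt_div_mul_add (a := (k : ℕ)) (b := q) (by omega)
              exact ⟨h4, h5⟩
            · intro k _ k' _ h
              exact Fin.ext h
        _ = q := by rw [Nat.card_Ico]; omega
    have h2 : ((A.filter fun x => ci (J.map a.toEmbedding) x = c).card : ℝ) ≤ q := by
      exact_mod_cast h1
    refine h2.trans ?_
    have hρ0 : (0 : ℝ) < ρ := by exact_mod_cast hρ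
    rw [le_div_iff₀ hρ0]
    have h3 : q * ρ ≤ 2 * N := by omega
    exact_mod_cast h3

end Pool.Agent.Helper6.FG
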