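import Pool.Agent.Helper6.FG.Pat
import Pool.Agent.Helper6.FG.Part

/-!
# MP_ef0af8_co: grids, the cells and the number of cells met by a flat
-/

set_option autoImplicit false

open Finset
open scoped Classical

namespace Pool.Agent.Helper6.FG

section

variable {E : Type} [AddCommGroup E] [Module ℝ E] {ι : Type} [Fintype ι]

/-- the cell of `x`. -/
noncomputable def cell (g : ι → (E →ₗ[ℝ] ℝ)) (th : ι → Finset ℝ) (x : E) : ι → ℕ :=
  fun i => ci (th i) (g i x)

theorem ncells (g : ι → (E →ₗ[ℝ] ℝ)) (th : ι → Finset ℝ) (rr : ι → ℕ)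
    (hth : ∀ i, (th i).card < rr i) (P : Finset E) :
    (P.image (cell g th)).card ≤ ∏ i, rr i := by
  have h1 : P.image (cell g th) ⊆ Fintype.piFinset fun i => range (rr i) := by
    intro c hc
    obtain ⟨x, -, rfl⟩ := mem_image.1 hc
    rw [Fintype.mem_piFinset]
    intro i
    rw [mem_range]
    exact lt_of_le_of_lt (ci_le _ _) (hth i)
  refine (card_le_card h1).trans (le_of_eq ?_)
  rw [Fintype.card_piFinset]
  exact prod_congr rfl fun i _ => card_range _

theorem cell_size (g : ι → (E →ₗ[ℝ] ℝ)) (hg : Function.Injective fun x i => g i x)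
    (th : ι → Finset ℝ) (A : ι → Finset ℝ) (s : ι → ℝ)
    (hs : ∀ i (c : ℕ), (((A i).filter fun x => ci (th i) x = c).card : ℝ) ≤ s i)
    (P : Finset E) (hP : ∀ x ∈ P, ∀ i, g i x ∈ A i) (c : ι → ℕ) :
    ((P.filter fun x => cell g th x = c).card : ℝ) ≤ ∏ i, s i := by
  have h1 : (P.filter fun x => cell g th x = c).card ≤
      (Fintype.piFinset fun i => (A i).filter fun x => ci (th i) x = c i).card := by
    refine card_le_card_of_injOn (fun x i => g i x) ?_ (fun x _ y _ h => hg h)
    intro x hx
    rw [mem_coe, mem_filter] at hx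
    rw [mem_coe, Fintype.mem_piFinset]
    intro i
    rw [mem_filter]
    exact ⟨hP x hx.1 i, congrFun hx.2 i⟩
  have h2 : ((P.filter fun x => cell g th x = c).card : ℝ) ≤
      ∏ i, (((A i).filter fun x => ci (th i) x = c i).card : ℝ) := by
    rw [Fintype.card_piFinset] at h1
    exact_mod_cast h1
  exact h2.trans (prod_le_prod (fun i _ => Nat.cast_nonneg _) fun i _ => hs i (c i))

theorem crossing [FiniteDimensional ℝ E] (g : ι → (E →ₗ[ℝ] ℝ)) (A : ι → Finset ℝ) (r : ℕ)
    (hr : 1 ≤ r) (th : ι → Finset ℝ) (hth : ∀ i, (th i).card ≤ r) (P : Finset E)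
    (hP : ∀ x ∈ P, ∀ i, g i x ∈ A i) (D : Submodule ℝ E) (c : E) (B : Finset ι)
    (hB : ∀ v ∈ D, (∀ i ∈ B, g i v = 0) → v = 0) :
    ((P.filter fun x => x - c ∈ D).image (cell g th)).card ≤
      (Fintype.card ι + 1) ^ (Fintype.card ι) * ∏ i ∈ B, min (A i).card r := by
  set L := Fintype.card ι with hL
  set S := P.filter fun x => x - c ∈ D with hS
  set B0 := B.filter fun i => (A i).card ≤ r with hB0
  set B1 := B.filter fun i => ¬ (A i).card ≤ r with hB1
  let val : E → ι → ℝ := fun x i => if i ∈ B0 then g i x else 0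
  -- the predicates
  let M : Finset (Σ _ : ι, ℝ) := univ.sigma th
  let g' : (Σ _ : ι, ℝ) → (E →ₗ[ℝ] ℝ) := fun l => g l.1
  let β' : (Σ _ : ι, ℝ) → ℝ := fun l => l.2
  have hM : M.card ≤ L * r := by
    rw [card_sigma]
    calc ∑ i, (th i).card ≤ ∑ _i : ι, r := sum_le_sum fun i _ => hth i
      _ = L * r := by rw [sum_const, smul_eq_mul, hL, card_univ]
  have hcell : ∀ x, cell g th x = fun i => ((pt g' β' M x).filter fun l => l.1 = i).card := by
    intro x
    funext i
    unfold cell ci
    refine card_bij (fun β _ => (⟨i, β⟩ : Σ _ : ι, ℝ)) ?_ ?_ ?_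
    · intro β hβ
      rw [mem_filter] at hβ
      rw [mem_filter, mem_pt]
      exact ⟨⟨mem_sigma.2 ⟨mem_univ _, hβ.1⟩, hβ.2⟩, rfl⟩
    · intro β _ β'' _ h
      simpa using h
    · rintro ⟨j, β⟩ hl
      rw [mem_filter, mem_pt] at hl
      obtain ⟨⟨h1, h2⟩, h3⟩ := hl
      simp only at h3
      subst h3
      exact ⟨β, mem_filter.2 ⟨(mem_sigma.1 h1).2, h2⟩, rfl⟩
  -- one slice
  have hslice : ∀ a, ((S.filter fun x => val x = a).image (cell g th)).card ≤
      (L * r + 1) ^ B1.card := by
    intro a
    set T := S.filter fun x => val x = a with hT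
    rcases T.eq_empty_or_nonempty with h0 | ⟨c1, hc1⟩
    · rw [h0, image_empty, card_empty]; exact Nat.zero_le _
    have h1 : T.image (cell g th) = (T.image (pt g' β' M)).image
        fun t i => (t.filter fun l => l.1 = i).card := by
      rw [image_image]
      refine image_congr fun x _ => ?_
      rw [hcell]
      rfl
    rw [h1]
    refine card_image_le.trans ?_
    set D1 := D ⊓ ⨅ i : {i // i ∈ B0}, LinearMap.ker (g i) with hD1
    have hfr : Module.finrank ℝ D1 ≤ B1.card := by
      let f : D1 →ₗ[ℝ] ({i // i ∈ B1} → ℝ) := LinearMap.pi fun i => (g i).comp D1.subtype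
      have hf : Function.Injective f := by
        rw [← LinearMap.ker_eq_bot, LinearMap.ker_eq_bot']
        intro v hv
        apply Subtype.ext
        have hvD : (v : E) ∈ D ⊓ ⨅ i : {i // i ∈ B0}, LinearMap.ker (g i) := v.2
        rw [Submodule.mem_inf, Submodule.mem_iInf] at hvD
        refine hB v hvD.1 fun i hi => ?_
        by_cases hir : (A i).card ≤ r
        · exact hvD.2 ⟨i, mem_filter.2 ⟨hi, hir⟩⟩
        · exact congrFun hv ⟨i, mem_filter.2 ⟨hi, hir⟩⟩
      have h2 := LinearMap.finrank_le_finrank_of_injective hf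
      rw [Module.finrank_fintype_fun_eq_card, Fintype.card_coe] at h2
      exact h2
    have hp := pat g' β' M B1.card D1 c1 T hfr ?_
    · exact hp.trans (Nat.pow_le_pow_left (Nat.add_le_add_right hM 1) _)
    · intro x hx
      rw [hT, mem_filter, hS, mem_filter] at hx hc1
      rw [hD1, Submodule.mem_inf, Submodule.mem_iInf]
      refine ⟨?_, ?_⟩
      · rw [show x - c1 = (x - c) - (c1 - c) by abel]
        exact D.sub_mem hx.1.2 hc1.1.2
      · intro i
        rw [LinearMap.mem_ker, map_sub, sub_eq_zero]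
        have h2 := congrFun (hx.2.trans hc1.2.symm) i.1
        simp only [val, if_pos i.2] at h2
        exact h2
  -- the number of slices
  have hval : (S.image val).card ≤ ∏ i ∈ B0, (A i).card := by
    have h1 : S.image val ⊆ Fintype.piFinset fun i => if i ∈ B0 then A i else {0} := by
      intro a ha
      obtain ⟨x, hx, rfl⟩ := mem_image.1 ha
      rw [Fintype.mem_piFinset]
      intro i
      by_cases hi : i ∈ B0
      · simp only [val, if_pos hi]
        exact hP x (mem_filter.1 hx).1 i
      · simp only [val, if_neg hi, mem_singleton]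
    refine (card_le_card h1).trans (le_of_eq ?_)
    rw [Fintype.card_piFinset, ← prod_subset (subset_univ B0)]
    · exact prod_congr rfl fun i hi => by rw [if_pos hi]
    · intro i _ hi
      rw [if_neg hi, card_singleton]
  have hS2 : S.image (cell g th) = (S.image val).biUnion fun a =>
      (S.filter fun x => val x = a).image (cell g th) := by
    ext z
    rw [mem_biUnion]
    constructor
    · intro hz
      obtain ⟨x, hx, rfl⟩ := mem_image.1 hz
      exact ⟨val x, mem_image_of_mem _ hx, mem_image_of_mem _ (mem_filter.2 ⟨hx, rfl⟩)⟩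
    · rintro ⟨a, -, hz⟩
      exact image_subset_image (filter_subset _ _) hz
  rw [hS2]
  refine card_biUnion_le.trans ?_
  refine (sum_le_sum fun a _ => hslice a).trans ?_
  rw [sum_const, smul_eq_mul]
  refine (Nat.mul_le_mul_right _ hval).trans ?_
  have h1 : ∏ i ∈ B, min (A i).card r = (∏ i ∈ B0, (A i).card) * r ^ B1.card := by
    rw [← prod_filter_mul_prod_filter_not B fun i => (A i).card ≤ r]
    congr 1
    · exact prod_congr rfl fun i hi => min_eq_left (mem_filter.1 hi).2
    · rw [← hB1, ← prod_const]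
      exact prod_congr rfl fun i hi => min_eq_right (not_le.1 (mem_filter.1 hi).2).le
  rw [h1]
  have h2 : (L * r + 1) ^ B1.card ≤ (L + 1) ^ L * r ^ B1.card := by
    calc (L * r + 1) ^ B1.card ≤ ((L + 1) * r) ^ B1.card :=
          Nat.pow_le_pow_left (by nlinarith) _
      _ = (L + 1) ^ B1.card * r ^ B1.card := mul_pow _ _ _
      _ ≤ _ := Nat.mul_le_mul_right _ (Nat.pow_le_pow_right (by omega) (card_le_univ _))
  calc (∏ i ∈ B0, (A i).card) * (L * r + 1) ^ B1.card
      ≤ (∏ i ∈ B0, (A i).card) * ((L + 1) ^ L * r ^ B1.card) := Nat.mul_le_mul_left _ h2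
    _ = _ := by ring

end

end Pool.Agent.Helper6.FG
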