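import Pool.Agent.Helper6.FL.Core

/-!
# MP_ef0af8_co: grids, the elementary incidence bound and its version for cells
-/

set_option autoImplicit false

open Finset
open scoped Classical

namespace Pool.Agent.Helper6.FG

open Pool.Agent.Helper6.FL (inc inc_comm)

/-- no two points on two common members. -/
def K22 {α β : Type} (P : Finset α) (F : Finset β) (R : α → β → Prop) : Prop :=
  ∀ b ∈ F, ∀ b' ∈ F, b ≠ b' → ∀ p ∈ P, ∀ p' ∈ P, R p b → R p b' → R p' b → R p' b' → p = p'

/-- the number of points of `P` on `b`. -/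
noncomputable def deg {α β : Type} (P : Finset α) (R : α → β → Prop) (b : β) : ℕ :=
  (P.filter fun p => R p b).card

theorem inc_eq_deg {α β : Type} (P : Finset α) (F : Finset β) (R : α → β → Prop) :
    inc P F R = ∑ b ∈ F, deg P R b := by
  rw [inc_comm]
  exact sum_congr rfl fun b _ => (card_filter _ _).symm

/-- pairs of points on a common member. -/
theorem sum_deg_sq {α β : Type} (P : Finset α) (F : Finset β) (R : α → β → Prop)
    (h : K22 P F R) : ∑ b ∈ F, (deg P R b) ^ 2 ≤ P.card ^ 2 + inc P F R := by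
  have h1 : ∀ b ∈ F, (deg P R b) ^ 2 = (((P ×ˢ P).filter fun z => R z.1 b ∧ R z.2 b)).card := by
    intro b _
    unfold deg
    rw [sq, ← card_product]
    congr 1
    ext z
    simp only [mem_product, mem_filter]
    tauto
  rw [sum_congr rfl h1]
  have h2 : ∀ b ∈ F, (((P ×ˢ P).filter fun z => R z.1 b ∧ R z.2 b)).card =
      ((P ×ˢ P).filter fun z => z.1 ≠ z.2 ∧ R z.1 b ∧ R z.2 b).card + deg P R b := by
    intro b _
    rw [← card_filter_add_card_filter_not (s := (P ×ˢ P).filter fun z => R z.1 b ∧ R z.2 b)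
      (fun z => z.1 ≠ z.2)]
    congr 1
    · rw [filter_filter]
      congr 1
      ext z
      simp only [mem_filter]
      tauto
    · unfold deg
      refine card_bij' (fun z _ => z.1) (fun p _ => (p, p)) ?_ ?_ ?_ ?_
      · intro z hz
        simp only [mem_filter, mem_product, not_not] at hz ⊢
        exact ⟨hz.1.1.1, hz.1.2.1⟩
      · intro p hp
        simp only [mem_filter, mem_product, not_not] at hp ⊢
        exact ⟨⟨⟨hp.1, hp.1⟩, hp.2, hp.2⟩, trivial⟩
      · intro z hz
        simp only [mem_filter, mem_product, not_not] at hz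
        ext
        · rfl
        · exact hz.2
      · intro p _; rfl
  rw [sum_congr rfl h2, sum_add_distrib, ← inc_eq_deg]
  refine Nat.add_le_add_right ?_ _
  simp only [card_filter]
  rw [sum_comm, sq, ← card_product, card_eq_sum_ones]
  refine sum_le_sum fun z hz => ?_
  rw [mem_product] at hz
  rw [← card_filter, card_le_one]
  intro b hb b' hb'
  rw [mem_filter] at hb hb'
  by_contra hne
  exact hb.2.1 (h b hb.1 b' hb'.1 hne z.1 hz.1 z.2 hz.2 hb.2.2.1 hb'.2.2.1 hb.2.2.2 hb'.2.2.2)

/-- `I ≤ n √e + e`. -/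
theorem kst {α β : Type} (P : Finset α) (F : Finset β) (R : α → β → Prop) (h : K22 P F R) :
    (inc P F R : ℝ) ≤ P.card * Real.sqrt F.card + F.card := by
  set I : ℝ := ((inc P F R : ℕ) : ℝ) with hI
  set n : ℝ := ((P.card : ℕ) : ℝ) with hn
  set e : ℝ := ((F.card : ℕ) : ℝ) with he
  have hn0 : 0 ≤ n := Nat.cast_nonneg _
  have he0 : 0 ≤ e := Nat.cast_nonneg _
  have h1 : I ^ 2 ≤ e * (n ^ 2 + I) := by
    have h2 := sum_deg_sq P F R h
    have h3 : (∑ b ∈ F, (deg P R b : ℝ)) ^ 2 ≤ F.card * ∑ b ∈ F, (deg P R b : ℝ) ^ 2 :=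
      sq_sum_le_card_mul_sum_sq
    have h4 : (∑ b ∈ F, (deg P R b : ℝ)) = I := by
      rw [hI, inc_eq_deg, Nat.cast_sum]
    have h5 : ∑ b ∈ F, (deg P R b : ℝ) ^ 2 ≤ n ^ 2 + I := by
      rw [hn, hI]; exact_mod_cast h2
    rw [h4] at h3
    exact h3.trans (mul_le_mul_of_nonneg_left h5 he0)
  have hs := Real.sq_sqrt he0
  have hs0 := Real.sqrt_nonneg e
  by_contra hcon
  push Not at hcon
  have h6 : n * Real.sqrt e < I - e := by linarith
  have h7 : 0 ≤ n * Real.sqrt e := mul_nonneg hn0 hs0
  have h8 : n * Real.sqrt e < I := by linarith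
  have h9 : (n * Real.sqrt e) ^ 2 < I * (I - e) := by
    rw [sq]
    exact mul_lt_mul'' h8 h6 h7 h7
  have h10 : (n * Real.sqrt e) ^ 2 = n ^ 2 * e := by rw [mul_pow, hs]
  nlinarith

/-- The bound for a partition of the points into cells: `R` = number of cells, `ν` = size of a
cell, `E` = number of pairs (cell, member) with an incidence. -/
theorem cells {α β κ : Type} [DecidableEq κ] (P : Finset α) (F : Finset β) (R : α → β → Prop) (h : K22 P F R)
    (cell : α → κ) (ν : ℝ) (hν0 : 0 ≤ ν) (hν : ∀ c ∈ P.image cell, ((P.filter fun p => cell p = c).card : ℝ) ≤ ν)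
    (Rc E : ℝ) (hRc : ((P.image cell).card : ℝ) ≤ Rc)
    (hE : (∑ b ∈ F, (((P.filter fun p => R p b).image cell).card : ℝ)) ≤ E) :
    (inc P F R : ℝ) ≤ ν * Real.sqrt (Rc * E) + E := by
  set X := P.image cell with hX
  set Fc : κ → Finset β := fun c => F.filter fun b => c ∈ (P.filter fun p => R p b).image cell
    with hFc
  have hsum : ∑ c ∈ X, ((Fc c).card : ℝ) = ∑ b ∈ F,
      (((P.filter fun p => R p b).image cell).card : ℝ) := by
    have h1 : ∑ c ∈ X, (Fc c).card = ∑ b ∈ F, ((P.filter fun p => R p b).image cell).card := by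
      simp only [hFc, card_filter]
      rw [sum_comm]
      refine sum_congr rfl fun b _ => ?_
      rw [← card_filter]
      congr 1
      ext c
      rw [mem_filter]
      constructor
      · exact fun h => h.2
      · intro h
        exact ⟨image_subset_image (filter_subset _ _) h, h⟩
    exact_mod_cast h1
  have hinc : inc P F R = ∑ c ∈ X, inc (P.filter fun p => cell p = c) (Fc c) R := by
    have h1 : inc P F R = ∑ c ∈ X, inc (P.filter fun p => cell p = c) F R := by
      unfold inc
      exact (sum_fiberwise_of_maps_to (fun p hp => mem_image_of_mem cell hp) _).symm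
    rw [h1]
    refine sum_congr rfl fun c _ => ?_
    unfold inc
    refine sum_congr rfl fun p hp => ?_
    rw [mem_filter] at hp
    rw [hFc, sum_filter]
    refine sum_congr rfl fun b _ => ?_
    by_cases hpb : R p b
    · rw [if_pos hpb, if_pos]
      rw [mem_image]
      exact ⟨p, mem_filter.2 ⟨hp.1, hpb⟩, hp.2⟩
    · rw [if_neg hpb, ite_self]
  rw [hinc, Nat.cast_sum]
  have h1 : ∀ c ∈ X, ((inc (P.filter fun p => cell p = c) (Fc c) R : ℕ) : ℝ) ≤
      ν * Real.sqrt (Fc c).card + (Fc c).card := by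
    intro c hc
    have hK : K22 (P.filter fun p => cell p = c) (Fc c) R := by
      intro b hb b' hb' hne p hp p' hp'
      exact h b (mem_filter.1 hb).1 b' (mem_filter.1 hb').1 hne p (mem_filter.1 hp).1 p'
        (mem_filter.1 hp').1
    refine (kst _ _ _ hK).trans ?_
    have := mul_le_mul_of_nonneg_right (hν c hc) (Real.sqrt_nonneg ((Fc c).card : ℝ))
    linarith
  refine (sum_le_sum h1).trans ?_
  rw [sum_add_distrib, hsum, ← mul_sum]
  refine add_le_add (mul_le_mul_of_nonneg_left ?_ hν0) hE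
  have h2 : (∑ c ∈ X, Real.sqrt (Fc c).card) ^ 2 ≤ X.card * ∑ c ∈ X, Real.sqrt (Fc c).card ^ 2 :=
    sq_sum_le_card_mul_sum_sq
  have h3 : ∑ c ∈ X, Real.sqrt (Fc c).card ^ 2 = ∑ c ∈ X, ((Fc c).card : ℝ) :=
    sum_congr rfl fun c _ => Real.sq_sqrt (Nat.cast_nonneg _)
  rw [h3, hsum] at h2
  refine Real.le_sqrt_of_sq_le (h2.trans ?_)
  exact mul_le_mul hRc hE (sum_nonneg fun _ _ => Nat.cast_nonneg _)
    (le_trans (Nat.cast_nonneg _) hRc)

end Pool.Agent.Helper6.FG
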