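import Pool.Agent.Helper6.FG.Kst
import Pool.Agent.Helper6.FG.Cross
import Pool.Agent.Helper6.FG.Comp

/-!
# MP_ef0af8_co: grids, main proof
-/

set_option autoImplicit false

open Finset
open scoped Classical

namespace Pool.Agent.Helper6.FG

open Pool.Agent.Helper6.FL (inc inc_le_left inc_filter_add bd)

section

variable {E : Type} [AddCommGroup E] [Module ℝ E] {ι : Type} [Fintype ι]

/-- the estimate for a given parameter `r`. -/
theorem fixed_r [FiniteDimensional ℝ E] (d : ℕ) (hι : Fintype.card ι = 2 * d)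
    (g : ι → (E →ₗ[ℝ] ℝ)) (hg : Function.Injective fun x i => g i x) (A : ι → Finset ℝ)
    (hA : ∀ i, 1 ≤ (A i).card) (P : Finset E) (hP : ∀ x ∈ P, ∀ i, g i x ∈ A i)
    (hPc : P.card = ∏ i, (A i).card) {β : Type} (F : Finset β) (D : β → Submodule ℝ E)
    (c : β → E) (hD : ∀ b ∈ F, Module.finrank ℝ (D b) = d)
    (hT : ∀ b ∈ F, ∀ b' ∈ F, b ≠ b' → ∀ p ∈ P, p - c b ∈ D b → p - c b' ∈ D b' →
      D b ⊓ D b' = ⊥) (r : ℕ) (hr : 1 ≤ r) :
    (inc P F (fun p b => p - c b ∈ D b) : ℝ) ≤ P.card +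
      (4 ^ d * P.card / (∏ i, min (A i).card r : ℕ)) *
        Real.sqrt ((∏ i, min (A i).card r : ℕ) * (F.card * (((2 * d + 1) ^ (2 * d) : ℕ) : ℝ) *
          Real.sqrt (∏ i, min (A i).card r : ℕ))) +
      F.card * (((2 * d + 1) ^ (2 * d) : ℕ) : ℝ) * Real.sqrt (∏ i, min (A i).card r : ℕ) := by
  set rr : ι → ℕ := fun i => min (A i).card r with hrr
  set Rr : ℕ := ∏ i, rr i with hRr
  set K : ℕ := (2 * d + 1) ^ (2 * d) with hK
  have hrr1 : ∀ i, 1 ≤ rr i := fun i => le_min (hA i) hr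
  have hRr1 : 1 ≤ Rr := Nat.one_le_iff_ne_zero.2 (prod_ne_zero_iff.2 fun i _ => by
    have := hrr1 i; omega)
  -- thresholds
  have hpart : ∀ i, ∃ B : Finset ℝ, B.card < rr i ∧
      ∀ c : ℕ, (((A i).filter fun x => ci B x = c).card : ℝ) ≤ 2 * (A i).card / rr i :=
    fun i => part (A i) (rr i) (hrr1 i) (min_le_left _ _)
  choose th hth1 hth2 using hpart
  have hg0 : ∀ v, (∀ i, g i v = 0) → v = 0 := by
    intro v hv
    apply hg
    funext i
    change g i v = g i 0
    rw [hv i, map_zero]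
  -- good members
  obtain ⟨good, hgood⟩ : ∃ good : β → Prop, ∀ b, good b ↔ ∃ B : Finset ι,
      (∀ v ∈ D b, (∀ i ∈ B, g i v = 0) → v = 0) ∧ (∏ i ∈ B, rr i) ^ 2 ≤ Rr :=
    ⟨fun b => ∃ B : Finset ι, (∀ v ∈ D b, (∀ i ∈ B, g i v = 0) → v = 0) ∧
      (∏ i ∈ B, rr i) ^ 2 ≤ Rr, fun _ => Iff.rfl⟩
  have hbad : inc P (F.filter fun b => ¬ good b) (fun p b => p - c b ∈ D b) ≤ P.card := by
    refine inc_le_left _ _ _ fun p hp b hb b' hb' h1 h2 => ?_
    rw [mem_filter] at hb hb'
    by_contra hne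
    have hbot := hT b hb.1 b' hb'.1 hne p hp h1 h2
    obtain ⟨B, hB1, hB2⟩ := compl_bases d hι g hg0 (D b) (D b') (hD b hb.1) (hD b' hb'.1) hbot
    have h3 : (∏ i ∈ B, rr i) * ∏ i ∈ Bᶜ, rr i = Rr := prod_mul_prod_compl B rr
    rcases le_total (∏ i ∈ B, rr i) (∏ i ∈ Bᶜ, rr i) with h4 | h4
    · apply hb.2
      rw [hgood]
      refine ⟨B, hB1, ?_⟩
      rw [← h3, sq]
      exact Nat.mul_le_mul_left _ h4
    · apply hb'.2
      rw [hgood]
      refine ⟨Bᶜ, fun v hv hi => hB2 v hv fun i hi' => hi i (mem_compl.2 hi'), ?_⟩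
      rw [← h3, sq, mul_comm (∏ i ∈ B, rr i)]
      exact Nat.mul_le_mul_left _ h4
  have hK22 : K22 P (F.filter fun b => good b) (fun p b => p - c b ∈ D b) := by
    intro b hb b' hb' hne p hp p' _ h1 h2 h3 h4
    have hbot := hT b (mem_filter.1 hb).1 b' (mem_filter.1 hb').1 hne p hp h1 h2
    have h5 : p - p' ∈ D b ⊓ D b' := by
      constructor
      · rw [show p - p' = (p - c b) - (p' - c b) by abel]
        exact (D b).sub_mem h1 h3
      · rw [show p - p' = (p - c b') - (p' - c b') by abel]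
        exact (D b').sub_mem h2 h4
    rw [hbot, Submodule.mem_bot] at h5
    exact sub_eq_zero.1 h5
  have hprod : ∏ i, (2 * ((A i).card : ℝ) / rr i) = 4 ^ d * P.card / (Rr : ℕ) := by
    rw [prod_div_distrib, prod_mul_distrib, prod_const, card_univ, hι, hPc, hRr, pow_mul]
    push_cast
    norm_num
  have hcr : ∀ b ∈ F.filter (fun b => good b),
      (((P.filter fun p => p - c b ∈ D b).image (cell g th)).card : ℝ) ≤ K * Real.sqrt Rr := by
    intro b hb
    obtain ⟨B, hB1, hB2⟩ := (hgood b).1 (mem_filter.1 hb).2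
    have h1 := crossing g A r hr th (fun i => ((hth1 i).le.trans (min_le_right _ _))) P hP (D b)
      (c b) B hB1
    rw [hι, ← hK] at h1
    have h2 : (((P.filter fun p => p - c b ∈ D b).image (cell g th)).card : ℝ) ≤
        K * (∏ i ∈ B, rr i : ℕ) := by exact_mod_cast h1
    refine h2.trans (mul_le_mul_of_nonneg_left ?_ (Nat.cast_nonneg _))
    refine Real.le_sqrt_of_sq_le ?_
    exact_mod_cast hB2
  have hmain := cells P (F.filter fun b => good b) (fun p b => p - c b ∈ D b) hK22 (cell g th)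
    (4 ^ d * P.card / (Rr : ℕ))
    (div_nonneg (mul_nonneg (pow_nonneg (by norm_num) _) (Nat.cast_nonneg _))
      (Nat.cast_nonneg _)) ?_ (Rr : ℕ) (F.card * (K : ℝ) * Real.sqrt Rr) ?_ ?_
  · have hbad' : (inc P (F.filter fun b => ¬ good b) (fun p b => p - c b ∈ D b) : ℝ) ≤ P.card := by
      exact_mod_cast hbad
    have hadd : (inc P F (fun p b => p - c b ∈ D b) : ℝ) =
        inc P (F.filter fun b => good b) (fun p b => p - c b ∈ D b) +
        inc P (F.filter fun b => ¬ good b) (fun p b => p - c b ∈ D b) := by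
      rw [← Nat.cast_add]
      exact congrArg Nat.cast (inc_filter_add P F (fun p b => p - c b ∈ D b) good)
    rw [hadd]
    linarith
  · intro z _
    rw [← hprod]
    exact cell_size g hg th A _ hth2 P hP z
  · have h1 := ncells g th rr hth1 P
    have h2 : (((P.image (cell g th)).card : ℕ) : ℝ) ≤ ((∏ i, rr i : ℕ) : ℝ) := Nat.cast_le.2 h1
    exact h2
  · have h1 : (∑ b ∈ F.filter (fun b => good b),
        (((P.filter fun p => p - c b ∈ D b).image (cell g th)).card : ℝ)) ≤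
        F.card * (K : ℝ) * Real.sqrt Rr := by
      refine (sum_le_sum hcr).trans ?_
      rw [sum_const, nsmul_eq_mul, mul_assoc]
      refine mul_le_mul_of_nonneg_right ?_ (mul_nonneg (Nat.cast_nonneg _) (Real.sqrt_nonneg _))
      exact Nat.cast_le.2 (card_le_card (filter_subset _ _))
    exact h1

end

end Pool.Agent.Helper6.FG
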