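import Mathlib

/-!
# MP_ef0af8_co: grids, the number of sign patterns on a flat
-/

set_option autoImplicit false

open Finset
open scoped Classical

namespace Pool.Agent.Helper6.FG

variable {E : Type} [AddCommGroup E] [Module ℝ E] {ι : Type}

/-- the pattern of `x`. -/
noncomputable def pt (g : ι → (E →ₗ[ℝ] ℝ)) (β : ι → ℝ) (M : Finset ι) (x : E) : Finset ι :=
  M.filter fun l => β l ≤ g l x

theorem mem_pt (g : ι → (E →ₗ[ℝ] ℝ)) (β : ι → ℝ) (M : Finset ι) (x : E) (l : ι) :
    l ∈ pt g β M x ↔ l ∈ M ∧ β l ≤ g l x := mem_filter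

/-- a point of the segment on the hyperplane. -/
theorem between (g : ι → (E →ₗ[ℝ] ℝ)) (β : ι → ℝ) (M : Finset ι) (a : ι) (D : Submodule ℝ E)
    (c x y : E) (hx : x - c ∈ D) (hy : y - c ∈ D) (hxa : g a x < β a) (hya : β a ≤ g a y)
    (t : Finset ι) (htx : pt g β M x = t) (hty : pt g β M y = t) :
    ∃ z : E, z - c ∈ D ∧ g a z = β a ∧ pt g β M z = t := by
  set s : ℝ := (β a - g a x) / (g a y - g a x) with hs
  have hpos : 0 < g a y - g a x := by linarith
  have hs0 : 0 ≤ s := div_nonneg (by linarith) hpos.le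
  have hs1 : s ≤ 1 := by rw [hs, div_le_one hpos]; linarith
  have hz : ∀ l, g l (x + s • (y - x)) = (1 - s) * g l x + s * g l y := by
    intro l
    rw [map_add, map_smul, map_sub, smul_eq_mul]; ring
  refine ⟨x + s • (y - x), ?_, ?_, ?_⟩
  · rw [show x + s • (y - x) - c = (x - c) + s • ((y - c) - (x - c)) by
      rw [sub_sub_sub_cancel_right]; abel]
    exact D.add_mem hx (D.smul_mem _ (D.sub_mem hy hx))
  · rw [hz, hs]
    field_simp
    ring
  · ext l
    rw [mem_pt, hz]
    have h1 : l ∈ t ↔ l ∈ M ∧ β l ≤ g l x := by rw [← htx, mem_pt]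
    have h2 : l ∈ t ↔ l ∈ M ∧ β l ≤ g l y := by rw [← hty, mem_pt]
    constructor
    · rintro ⟨hl, hl2⟩
      by_contra hlt
      have h3 : g l x < β l := by
        by_contra h; exact hlt (h1.2 ⟨hl, not_lt.1 h⟩)
      have h4 : g l y < β l := by
        by_contra h; exact hlt (h2.2 ⟨hl, not_lt.1 h⟩)
      obtain ⟨δ, hδ, hδx, hδy⟩ : ∃ δ > 0, δ ≤ β l - g l x ∧ δ ≤ β l - g l y :=
        ⟨min (β l - g l x) (β l - g l y), lt_min (by linarith) (by linarith),
          min_le_left _ _, min_le_right _ _⟩
      have h5 := mul_le_mul_of_nonneg_left hδx (show 0 ≤ 1 - s by linarith)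
      have h6 := mul_le_mul_of_nonneg_left hδy hs0
      linarith
    · intro hlt
      have h3 := (h1.1 hlt).2
      have h4 := (h2.1 hlt).2
      refine ⟨(h1.1 hlt).1, ?_⟩
      nlinarith

theorem pat [DecidableEq ι] [FiniteDimensional ℝ E] (g : ι → (E →ₗ[ℝ] ℝ)) (β : ι → ℝ) (M : Finset ι) :
    ∀ (k : ℕ) (D : Submodule ℝ E) (c : E) (S : Finset E), Module.finrank ℝ D ≤ k →
    (∀ x ∈ S, x - c ∈ D) → (S.image (pt g β M)).card ≤ (M.card + 1) ^ k := by
  induction M using Finset.induction_on with
  | empty =>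
    intro k D c S _ _
    rw [card_empty, zero_add, one_pow, card_le_one]
    intro s hs t ht
    obtain ⟨x, -, rfl⟩ := mem_image.1 hs
    obtain ⟨y, -, rfl⟩ := mem_image.1 ht
    simp [pt]
  | insert a M ha ih =>
    intro k D c S hD hS
    set T' := S.image (pt g β (insert a M)) with hT'
    set T := S.image (pt g β M) with hT
    set A0 := T'.filter fun t => a ∉ t with hA0
    set A1 := (T'.filter fun t => a ∈ t).image fun t => t.erase a with hA1
    have hpt1 : ∀ x, β a ≤ g a x → pt g β (insert a M) x = insert a (pt g β M x) := by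
      intro x hx
      unfold pt
      rw [filter_insert, if_pos hx]
    have hpt0 : ∀ x, ¬ β a ≤ g a x → pt g β (insert a M) x = pt g β M x := by
      intro x hx
      unfold pt
      rw [filter_insert, if_neg hx]
    have hnot : ∀ x, a ∉ pt g β M x := fun x h => ha (mem_pt g β M x a |>.1 h).1
    -- the members of `A0`, `A1`
    have h0 : ∀ t ∈ A0, ∃ x ∈ S, g a x < β a ∧ pt g β M x = t := by
      intro t ht
      rw [hA0, mem_filter, hT', mem_image] at ht
      obtain ⟨⟨x, hx, rfl⟩, hat⟩ := ht
      by_cases h : β a ≤ g a x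
      · rw [hpt1 x h] at hat; exact absurd (mem_insert_self _ _) hat
      · exact ⟨x, hx, not_le.1 h, (hpt0 x h).symm⟩
    have h1 : ∀ t ∈ A1, ∃ x ∈ S, β a ≤ g a x ∧ pt g β M x = t := by
      intro t ht
      rw [hA1, mem_image] at ht
      obtain ⟨t', ht', rfl⟩ := ht
      rw [mem_filter, hT', mem_image] at ht'
      obtain ⟨⟨x, hx, rfl⟩, hat⟩ := ht'
      by_cases h : β a ≤ g a x
      · refine ⟨x, hx, h, ?_⟩
        rw [hpt1 x h, erase_insert (hnot x)]
      · rw [hpt0 x h] at hat; exact absurd hat (hnot x)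
    have hsub0 : A0 ⊆ T := by
      intro t ht
      obtain ⟨x, hx, -, rfl⟩ := h0 t ht
      exact mem_image_of_mem _ hx
    have hsub1 : A1 ⊆ T := by
      intro t ht
      obtain ⟨x, hx, -, rfl⟩ := h1 t ht
      exact mem_image_of_mem _ hx
    have hc1 : A1.card = (T'.filter fun t => a ∈ t).card := by
      rw [hA1]
      refine card_image_of_injOn ?_
      intro t ht t' ht' htt
      rw [mem_coe, mem_filter] at ht ht'
      have h2 : insert a (t.erase a) = insert a (t'.erase a) := by
        have h3 : t.erase a = t'.erase a := htt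
        rw [h3]
      rwa [insert_erase ht.2, insert_erase ht'.2] at h2
    have hcard : T'.card = A0.card + A1.card := by
      rw [hc1, hA0, add_comm]
      exact (card_filter_add_card_filter_not _).symm
    have hTle : T.card ≤ (M.card + 1) ^ k := ih k D c S hD hS
    have hU : A0.card + A1.card = (A0 ∪ A1).card + (A0 ∩ A1).card :=
      (card_union_add_card_inter A0 A1).symm
    have hU1 : (A0 ∪ A1).card ≤ T.card := card_le_card (union_subset hsub0 hsub1)
    rw [card_insert_of_notMem ha]
    rcases (A0 ∩ A1).eq_empty_or_nonempty with hemp | ⟨t0, ht0⟩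
    · rw [hcard, hU, hemp, card_empty, add_zero]
      exact (hU1.trans hTle).trans (Nat.pow_le_pow_left (by omega) k)
    · -- the points on the hyperplane
      have hz : ∀ t ∈ A0 ∩ A1, ∃ z : E, z - c ∈ D ∧ g a z = β a ∧ pt g β M z = t := by
        intro t ht
        rw [mem_inter] at ht
        obtain ⟨x, hx, hxa, hxt⟩ := h0 t ht.1
        obtain ⟨y, hy, hya, hyt⟩ := h1 t ht.2
        exact between g β M a D c x y (hS x hx) (hS y hy) hxa hya t hxt hyt
      choose! z hzD hza hzt using hz
      set D1 := D ⊓ LinearMap.ker (g a) with hD1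
      have hlt : D1 < D := by
        refine lt_of_le_of_ne inf_le_left fun h => ?_
        rw [mem_inter] at ht0
        obtain ⟨x, hx, hxa, -⟩ := h0 t0 ht0.1
        obtain ⟨y, hy, hya, -⟩ := h1 t0 ht0.2
        have h2 : y - x ∈ D := by
          rw [show y - x = (y - c) - (x - c) by abel]
          exact D.sub_mem (hS y hy) (hS x hx)
        rw [← h, hD1, Submodule.mem_inf, LinearMap.mem_ker, map_sub] at h2
        linarith [h2.2]
      have hfr := Submodule.finrank_lt_finrank_of_lt hlt
      obtain ⟨k', rfl⟩ : ∃ k', k = k' + 1 := ⟨k - 1, by omega⟩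
      have hI := ih k' D1 (z t0) ((A0 ∩ A1).image z) (by omega) ?_
      · have hsub : A0 ∩ A1 ⊆ ((A0 ∩ A1).image z).image (pt g β M) := by
          intro t ht
          rw [mem_image]
          exact ⟨z t, mem_image_of_mem _ ht, hzt t ht⟩
        have h3 := (card_le_card hsub).trans hI
        calc T'.card = (A0 ∪ A1).card + (A0 ∩ A1).card := by rw [hcard, hU]
          _ ≤ (M.card + 1) ^ (k' + 1) + (M.card + 1) ^ k' :=
              Nat.add_le_add (hU1.trans hTle) h3
          _ = (M.card + 1 + 1) * (M.card + 1) ^ k' := by ring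
          _ ≤ (M.card + 1 + 1) * (M.card + 1 + 1) ^ k' :=
              Nat.mul_le_mul_left _ (Nat.pow_le_pow_left (by omega) _)
          _ = _ := by ring
      · intro x hx
        obtain ⟨t, ht, rfl⟩ := mem_image.1 hx
        rw [hD1, Submodule.mem_inf, LinearMap.mem_ker]
        refine ⟨?_, ?_⟩
        · rw [show z t - z t0 = (z t - c) - (z t0 - c) by abel]
          exact D.sub_mem (hzD t ht) (hzD t0 ht0)
        · rw [map_sub, hza t ht, hza t0 ht0, sub_self]

end Pool.Agent.Helper6.FG
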