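import Pool.Agent.Helper6.FG.Choice
import Pool.Agent.Helper6.FL.Stmt

/-!
# MP_ef0af8_co: grids, the statement
-/

set_option autoImplicit false

namespace Pool.Agent.Helper6.FG.Stmt

open Pool.Agent.Helper57.ZF.Stmt (Pt Aff pts dirSub dir IsFlat incidences)
open Pool.Agent.Helper6.FL.Stmt (PointwiseIntersecting incidences_eq')
open Pool.Agent.Helper6.FL (inc)

/-- The systems of linear coordinates of `ℝ^(2d)`. -/
def Coords (d : ℕ) : Type := Pt d ≃ₗ[ℝ] (Fin (2 * d) → ℝ)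

/-- The coordinate `i` of the point `x`. -/
noncomputable def coordinate {d : ℕ} (T : Coords d) (i : Fin (2 * d)) (x : Pt d) : ℝ :=
  (show Pt d ≃ₗ[ℝ] (Fin (2 * d) → ℝ) from T) x i

/-- `P` is contained in a grid `A₁ × ⋯ × A_{2d}`, in some system of linear coordinates, which has
at most `k |P|` points. -/
def DenseInGrid {d : ℕ} (k : ℝ) (P : Finset (Pt d)) : Prop :=
  ∃ (T : Coords d) (A : Fin (2 * d) → Finset ℝ), (∀ x ∈ P, ∀ i, coordinate T i x ∈ A i) ∧
    (∏ i, ((A i).card : ℝ)) ≤ k * P.card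

theorem inc_mono {α β : Type} (P P' : Finset α) (F : Finset β) (R : α → β → Prop)
    (h : P ⊆ P') : inc P F R ≤ inc P' F R := by
  unfold inc
  exact Finset.sum_le_sum_of_subset h

/-- The theorem. -/
theorem main_stmt : ∀ (d : ℕ) (k : ℝ), ∃ C : ℝ, ∀ (P : Finset (Pt d)) (F : Finset (Aff d)),
    (∀ Q ∈ F, IsFlat Q) → PointwiseIntersecting F → DenseInGrid k P →
    (incidences P F : ℝ) ≤ C * ((P.card : ℝ) ^ (2 / 3 : ℝ) * (F.card : ℝ) ^ (2 / 3 : ℝ) +
      P.card + F.card) := by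
  classical
  intro d k
  set C₀ : ℝ := 2 * ((2 ^ d) ^ 5 * (((2 * d + 1) ^ (2 * d) : ℕ) : ℝ)) with hC₀
  have hC₀0 : 0 ≤ C₀ := by rw [hC₀]; positivity
  set k' : ℝ := max k 1 with hk'
  have hk1 : 1 ≤ k' := le_max_right _ _
  refine ⟨C₀ * k', ?_⟩
  intro P F hF hint hgrid
  obtain ⟨T, A, hPA, hcard⟩ := hgrid
  set T' : Pt d ≃ₗ[ℝ] (Fin (2 * d) → ℝ) := T with hT'
  -- the grid
  set G : Finset (Pt d) := (Fintype.piFinset A).image T'.symm with hG
  have hGmem : ∀ x ∈ G, ∀ i, (LinearMap.proj i).comp T'.toLinearMap x ∈ A i := by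
    intro x hx i
    rw [hG, Finset.mem_image] at hx
    obtain ⟨y, hy, rfl⟩ := hx
    have h1 : (LinearMap.proj i).comp T'.toLinearMap (T'.symm y) = y i := by
      change T' (T'.symm y) i = y i
      rw [LinearEquiv.apply_symm_apply]
    rw [h1]
    exact Fintype.mem_piFinset.1 hy i
  have hGcard : G.card = ∏ i, (A i).card := by
    rw [hG, Finset.card_image_of_injective _ T'.symm.injective, Fintype.card_piFinset]
  have hPG : P ⊆ G := by
    intro x hx
    rw [hG, Finset.mem_image]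
    refine ⟨T' x, ?_, T'.symm_apply_apply x⟩
    rw [Fintype.mem_piFinset]
    exact fun i => hPA x hx i
  -- a point of each flat
  have hpt : ∀ Q ∈ F, ∃ c : Pt d, c ∈ pts Q := fun Q hQ => (hF Q hQ).1
  choose! c hc using hpt
  have hmem : ∀ Q ∈ F, ∀ x : Pt d, x - c Q ∈ dirSub Q ↔ x ∈ pts Q := by
    intro Q hQ x
    have h1 : c Q ∈ (show AffineSubspace ℝ (Pt d) from Q) := hc Q hQ
    have h2 := AffineSubspace.vsub_right_mem_direction_iff_mem h1 x
    rw [vsub_eq_sub] at h2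
    exact h2
  have : FiniteDimensional ℝ (Pt d) := Module.Finite.equiv T'.symm
  have h := grid_main (E := Pt d) (ι := Fin (2 * d)) d (Fintype.card_fin _)
    (fun i => (LinearMap.proj i).comp T'.toLinearMap) ?_ A G hGmem hGcard F dirSub c
    (fun Q hQ => (hF Q hQ).2) ?_
  · have e : inc P F (fun p Q => p - c Q ∈ dirSub Q) = inc P F fun p Q => p ∈ pts Q := by
      unfold inc
      refine Finset.sum_congr rfl fun p _ => Finset.sum_congr rfl fun Q hQ => ?_
      by_cases hp : p ∈ pts Q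
      · rw [if_pos ((hmem Q hQ p).2 hp), if_pos hp]
      · rw [if_neg fun h => hp ((hmem Q hQ p).1 h), if_neg hp]
    rw [incidences_eq', ← e]
    have h0 : (inc P F (fun p Q => p - c Q ∈ dirSub Q) : ℝ) ≤
        (inc G F (fun p Q => p - c Q ∈ dirSub Q) : ℝ) :=
      Nat.cast_le.2 (inc_mono P G F _ hPG)
    refine h0.trans (h.trans ?_)
    rw [← hC₀, mul_assoc C₀ k']
    refine mul_le_mul_of_nonneg_left ?_ hC₀0
    have hGk : (G.card : ℝ) ≤ k' * P.card := by
      rw [hGcard, Nat.cast_prod]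
      exact hcard.trans (mul_le_mul_of_nonneg_right (le_max_left _ _) (Nat.cast_nonneg _))
    unfold FL.bd
    have hP0 : (0 : ℝ) ≤ P.card := Nat.cast_nonneg _
    have hF0 : (0 : ℝ) ≤ F.card := Nat.cast_nonneg _
    have h1 : (G.card : ℝ) ^ (2 / 3 : ℝ) ≤ k' * (P.card : ℝ) ^ (2 / 3 : ℝ) := by
      calc (G.card : ℝ) ^ (2 / 3 : ℝ) ≤ (k' * P.card) ^ (2 / 3 : ℝ) :=
            Real.rpow_le_rpow (Nat.cast_nonneg _) hGk (by norm_num)
        _ = k' ^ (2 / 3 : ℝ) * (P.card : ℝ) ^ (2 / 3 : ℝ) :=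
            Real.mul_rpow (by linarith) hP0
        _ ≤ k' ^ (1 : ℝ) * (P.card : ℝ) ^ (2 / 3 : ℝ) :=
            mul_le_mul_of_nonneg_right (Real.rpow_le_rpow_of_exponent_le hk1 (by norm_num))
              (Real.rpow_nonneg hP0 _)
        _ = k' * (P.card : ℝ) ^ (2 / 3 : ℝ) := by rw [Real.rpow_one]
    have h2 := mul_le_mul_of_nonneg_right h1 (Real.rpow_nonneg hF0 (2 / 3 : ℝ))
    have h3 : (F.card : ℝ) ≤ k' * F.card := le_mul_of_one_le_left hF0 hk1
    calc (G.card : ℝ) ^ (2 / 3 : ℝ) * (F.card : ℝ) ^ (2 / 3 : ℝ) + G.card + F.card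
        ≤ k' * (P.card : ℝ) ^ (2 / 3 : ℝ) * (F.card : ℝ) ^ (2 / 3 : ℝ) + k' * P.card +
          k' * F.card := add_le_add (add_le_add h2 hGk) h3
      _ = _ := by ring
  · intro x y hxy
    apply T'.injective
    exact hxy
  · intro Q hQ Q' hQ' hne p _ h1 h2
    rw [Submodule.eq_bot_iff]
    intro v hv
    have hp1 := (hmem Q hQ p).1 h1
    have hp2 := (hmem Q' hQ' p).1 h2
    have hq1 : p + v ∈ pts Q := (hmem Q hQ (p + v)).1 (by
      rw [show p + v - c Q = (p - c Q) + v by abel]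
      exact (dirSub Q).add_mem h1 hv.1)
    have hq2 : p + v ∈ pts Q' := (hmem Q' hQ' (p + v)).1 (by
      rw [show p + v - c Q' = (p - c Q') + v by abel]
      exact (dirSub Q').add_mem h2 hv.2)
    have := hint Q hQ Q' hQ' hne ⟨hq1, hq2⟩ ⟨hp1, hp2⟩
    simpa using this

end Pool.Agent.Helper6.FG.Stmt
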